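import Pool.Agent.H73.PolishHomeo.UpperBound
import Pool.Agent.H73.PolishHomeo.NotPi12
import Pool.Agent.H73.PolishHomeo.UniversalSpaces

/-!
# Homeomorphism of Polish spaces is a complete `Σ¹₂` equivalence relation

The definitions are in `Pool.Agent.H73.PolishHomeo.Defs` (and `IsUrysohn` is in
`Pool.Agent.H73.PolishHomeo.UniversalSpaces`).
-/

set_option autoImplicit false

open Pool.Agent.H73.PolishHomeo

namespace Pool.Agent.Results.MP_a9bf58_lc.CompleteSigma12

/-- **The exact complexity of homeomorphism of Polish spaces.**

Let `U` be the Urysohn space, or more generally any Polish space containing a closed copy of every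
Polish space.  The homeomorphism relation on the Effros Borel space `F(U)` of the closed subsets
of `U` is `Σ¹₂`, every `Σ¹₂` equivalence relation on a standard Borel space is Borel reducible to
it, and every `Σ¹₂` subset of a standard Borel space is a Borel preimage of it.  Consequently it
is not `Π¹₂`, in particular not `Σ¹₁`, and it is not Borel reducible to any `Σ¹₁` relation. -/
theorem result :
    (∀ (U : Type) [MetricSpace U], IsUrysohn U → PolishSpace U ∧ IsUniversalPolish U) ∧
    IsUniversalPolish (ℕ → ℝ) ∧
    ∀ (U : Type) [TopologicalSpace U] [PolishSpace U], IsUniversalPolish U →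
      IsSigma12 (graph (Homeo U)) ∧
      (∀ (X : Type) [MeasurableSpace X] [StandardBorelSpace X] (E : X → X → Prop),
        Equivalence E → IsSigma12 (graph E) → BorelReducible E (Homeo U)) ∧
      (∀ (X : Type) [MeasurableSpace X] [StandardBorelSpace X] (P : Set X), IsSigma12 P →
        ∃ g : X → ClosedSubsets U × ClosedSubsets U,
          Measurable g ∧ P = g ⁻¹' graph (Homeo U)) ∧
      ¬ IsSigma12 (graph (Homeo U))ᶜ ∧
      ¬ IsSigma11 (graph (Homeo U)) ∧
      (∀ (X : Type) [MeasurableSpace X] (E : X → X → Prop),
        IsSigma11 (graph E) → ¬ BorelReducible (Homeo U) E) := by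
  refine ⟨fun U _ hU => ⟨hU.polishSpace, hU.isUniversalPolish⟩, isUniversalPolish_real_seq, ?_⟩
  intro U _ _ hU
  exact ⟨isSigma12_homeo U, borelReducible_homeo U hU, complete_homeo U hU,
    not_pi12_homeo U hU, not_sigma11_homeo U hU, not_reducible_homeo U hU⟩

end Pool.Agent.Results.MP_a9bf58_lc.CompleteSigma12
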